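import Mathlib
import Pool.Agent.H807R2.DavIface

/-! Möbius averages of conjugates of compact operators. -/

set_option autoImplicit false

namespace Pool.Agent.V11302.MC

open Filter Topology Finset Polynomial InnerProductSpace

variable {H : Type*} [NormedAddCommGroup H] [InnerProductSpace ℂ H] [CompleteSpace H]

/-- norm of a polynomial in a unitary operator -/
theorem norm_aeval_le (U : unitary (H →L[ℂ] H)) (q : ℂ[X]) (c : ℝ) (hc : 0 ≤ c)
    (h : ∀ z : ℂ, ‖z‖ = 1 → ‖q.eval z‖ ≤ c) : ‖aeval (U : H →L[ℂ] H) q‖ ≤ c := by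
  rw [← cfc_polynomial q (U : H →L[ℂ] H)]
  refine norm_cfc_le hc fun z hz => h z ?_
  have h1 := spectrum.subset_circle_of_unitary U.2 hz
  simpa using h1

/-- the sums over exponentials -/
def SupLe (c : ℕ → ℂ) (N : ℕ) (S : ℝ) : Prop :=
  ∀ z : ℂ, ‖z‖ = 1 → ‖∑ n ∈ range N, c n * z ^ n‖ ≤ S

theorem norm_sum_le_of_sup (U : unitary (H →L[ℂ] H)) (c : ℕ → ℂ) (N : ℕ) {S : ℝ} (hS : SupLe c N S) :
    ‖∑ n ∈ range N, c n • (U : H →L[ℂ] H) ^ n‖ ≤ S := by
  have hS0 : 0 ≤ S := (norm_nonneg _).trans (hS 1 (by simp))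
  have h1 := norm_aeval_le U (∑ n ∈ range N, C (c n) * X ^ n) S hS0 (fun z hz => by
    rw [eval_finset_sum]
    simpa using hS z hz)
  simpa [Algebra.smul_def] using h1

theorem bilin (U V : unitary (H →L[ℂ] H)) (c : ℕ → ℂ) (N : ℕ) {S : ℝ} (hS : SupLe c N S)
    (x y a b : H) :
    ‖∑ n ∈ range N, c n * (inner ℂ b (((U : H →L[ℂ] H) ^ n) x) *
      inner ℂ y (((V : H →L[ℂ] H) ^ n) a))‖ ≤ S * ‖b‖ * ‖x‖ * ‖y‖ * ‖a‖ := by
  have hS0 : 0 ≤ S := (norm_nonneg _).trans (hS 1 (by simp))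
  have h1 : SupLe (fun n => c n * inner ℂ b (((U : H →L[ℂ] H) ^ n) x)) N (S * ‖b‖ * ‖x‖) := by
    intro w hw
    have h2 : SupLe (fun n => c n * w ^ n) N S := by
      intro z hz
      have := hS (w * z) (by rw [norm_mul, hw, hz, one_mul])
      refine le_trans (le_of_eq ?_) this
      congr 1
      refine sum_congr rfl fun n _ => ?_
      rw [mul_pow]; ring
    have h3 := norm_sum_le_of_sup U _ N h2
    have h4 : ∑ n ∈ range N, (c n * inner ℂ b (((U : H →L[ℂ] H) ^ n) x)) * w ^ n =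
        inner ℂ b ((∑ n ∈ range N, (c n * w ^ n) • (U : H →L[ℂ] H) ^ n) x) := by
      rw [ContinuousLinearMap.sum_apply, inner_sum]
      refine sum_congr rfl fun n _ => ?_
      rw [ContinuousLinearMap.smul_apply, inner_smul_right]
      ring
    rw [h4]
    calc _ ≤ ‖b‖ * ‖(∑ n ∈ range N, (c n * w ^ n) • (U : H →L[ℂ] H) ^ n) x‖ := norm_inner_le_norm _ _
      _ ≤ ‖b‖ * (S * ‖x‖) := by
          gcongr
          exact (ContinuousLinearMap.le_opNorm _ _).trans (by gcongr)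
      _ = S * ‖b‖ * ‖x‖ := by ring
  have h5 := norm_sum_le_of_sup V _ N h1
  have h6 : ∑ n ∈ range N, c n * (inner ℂ b (((U : H →L[ℂ] H) ^ n) x) *
      inner ℂ y (((V : H →L[ℂ] H) ^ n) a)) =
      inner ℂ y ((∑ n ∈ range N, (c n * inner ℂ b (((U : H →L[ℂ] H) ^ n) x)) •
        (V : H →L[ℂ] H) ^ n) a) := by
    rw [ContinuousLinearMap.sum_apply, inner_sum]
    refine sum_congr rfl fun n _ => ?_
    rw [ContinuousLinearMap.smul_apply, inner_smul_right]
    ring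
  rw [h6]
  calc _ ≤ ‖y‖ * ‖(∑ n ∈ range N, (c n * inner ℂ b (((U : H →L[ℂ] H) ^ n) x)) •
        (V : H →L[ℂ] H) ^ n) a‖ := norm_inner_le_norm _ _
    _ ≤ ‖y‖ * (S * ‖b‖ * ‖x‖ * ‖a‖) := by
        gcongr
        exact (ContinuousLinearMap.le_opNorm _ _).trans (by gcongr)
    _ = _ := by ring

/-- the operator `a ↦ ⟨y, a⟩ x` -/
noncomputable def rk (x y : H) : H →L[ℂ] H := (innerSL ℂ y).smulRight x

theorem rk_apply (x y a : H) : rk x y a = inner ℂ y a • x := by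
  simp [rk]

theorem norm_le_of_inner (v : H) (M : ℝ) (hM : 0 ≤ M) (h : ∀ b, ‖inner ℂ b v‖ ≤ M * ‖b‖) : ‖v‖ ≤ M := by
  have h1 := h v
  rw [inner_self_eq_norm_sq_to_K] at h1
  have h2 : ‖((‖v‖ : ℂ) ^ 2)‖ = ‖v‖ ^ 2 := by simp
  have h3 : ‖v‖ ^ 2 ≤ M * ‖v‖ := by
    rw [← h2]; exact h1
  by_cases h0 : ‖v‖ = 0
  · rw [h0]; exact hM
  · have : 0 < ‖v‖ := lt_of_le_of_ne (norm_nonneg _) (Ne.symm h0)
    nlinarith

theorem rank_one (U V : unitary (H →L[ℂ] H)) (c : ℕ → ℂ) (N : ℕ) {S : ℝ} (hS : SupLe c N S)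
    (x y : H) :
    ‖∑ n ∈ range N, c n • ((U : H →L[ℂ] H) ^ n * rk x y * (V : H →L[ℂ] H) ^ n)‖ ≤ S * ‖x‖ * ‖y‖ := by
  have hS0 : 0 ≤ S := (norm_nonneg _).trans (hS 1 (by simp))
  refine ContinuousLinearMap.opNorm_le_bound _ (by positivity) fun a => ?_
  refine norm_le_of_inner _ _ (by positivity) fun b => ?_
  have h1 := bilin U V c N hS x y a b
  refine le_trans (le_of_eq ?_) (h1.trans (le_of_eq (by ring)))
  congr 1
  rw [ContinuousLinearMap.sum_apply, inner_sum]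
  refine sum_congr rfl fun n _ => ?_
  rw [ContinuousLinearMap.smul_apply, inner_smul_right, ContinuousLinearMap.mul_apply,
    ContinuousLinearMap.mul_apply, rk_apply, map_smul, inner_smul_right]
  ring

/-- compact operators are limits of operators of finite rank -/
theorem approx (u : H →L[ℂ] H) (hu : IsCompactOperator u) (ε : ℝ) (hε : 0 < ε) :
    ∃ (m : ℕ) (e : Fin m → H) (w : Fin m → H), ‖u - ∑ i, rk (e i) (w i)‖ ≤ ε := by
  have h1 : IsCompact (closure (u '' Metric.closedBall 0 1)) := by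
    simpa using hu.isCompact_closure_image_closedBall (f := (u : H →ₗ[ℂ] H)) 1
  obtain ⟨t, ht, h2⟩ := Metric.totallyBounded_iff.1 h1.totallyBounded ε hε
  let F : Submodule ℂ H := Submodule.span ℂ t
  have hF : FiniteDimensional ℂ F := FiniteDimensional.span_of_finite ℂ ht
  let b := stdOrthonormalBasis ℂ F
  refine ⟨_, fun i => (b i : H), fun i => ContinuousLinearMap.adjoint u (b i : H), ?_⟩
  have h3 : ∀ a : H, (∑ i, rk (b i : H) (ContinuousLinearMap.adjoint u (b i : H))) a =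
      F.starProjection (u a) := by
    intro a
    rw [_root_.sum_apply]
    have h4 := b.sum_repr' (F.orthogonalProjection (u a))
    have h5 := congrArg (fun x : F => (x : H)) h4
    simp only [Submodule.coe_sum, Submodule.coe_smul] at h5
    rw [Submodule.starProjection_apply, ← h5]
    refine sum_congr rfl fun i _ => ?_
    rw [rk_apply, ContinuousLinearMap.adjoint_inner_left]
    congr 1
    rw [Submodule.coe_inner]
    rw [← Submodule.starProjection_apply, ← Submodule.inner_starProjection_left_eq_right]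
    rw [Submodule.starProjection_eq_self_iff.2 (b i).2]
  refine ContinuousLinearMap.opNorm_le_of_unit_norm hε.le fun a ha => ?_
  rw [sub_apply, h3]
  have h6 : u a ∈ closure (u '' Metric.closedBall 0 1) :=
    subset_closure ⟨a, by simp [ha], rfl⟩
  obtain ⟨y, hy, hya⟩ := Set.mem_iUnion₂.1 (h2 h6)
  rw [Metric.mem_ball, dist_eq_norm] at hya
  rw [Submodule.starProjection_minimal]
  refine (ciInf_le ⟨0, ?_⟩ (⟨y, Submodule.subset_span hy⟩ : F)).trans hya.le
  rintro _ ⟨x, rfl⟩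
  exact norm_nonneg _

/-- the Möbius function -/
noncomputable def mb (n : ℕ) : ℂ := ((ArithmeticFunction.moebius n : ℤ) : ℂ)

theorem norm_mb_le (n : ℕ) : ‖mb n‖ ≤ 1 := by
  rw [mb, Complex.norm_intCast]
  have := ArithmeticFunction.abs_moebius_le_one (n := n)
  exact_mod_cast this

theorem sup_of_dav (hD : Pool.Agent.H807R2.Davenport) (ε : ℝ) (hε : 0 < ε) :
    ∃ N0 : ℕ, ∀ N ≥ N0, SupLe mb N (ε * N) := by
  obtain ⟨C, hC, h⟩ := hD
  have h1 : Tendsto (fun N : ℕ => (Real.log N) ^ (3 / 4 : ℝ)) atTop atTop :=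
    (tendsto_rpow_atTop (by norm_num)).comp (Real.tendsto_log_atTop.comp tendsto_natCast_atTop_atTop)
  obtain ⟨N0, hN0⟩ := eventually_atTop.1 (h1.eventually_ge_atTop (C / ε))
  refine ⟨max N0 16, fun N hN z hz => ?_⟩
  have h2 := h N ((le_max_right _ _).trans hN) (Complex.arg z / (2 * Real.pi))
  have h3 := hN0 N ((le_max_left _ _).trans hN)
  have h5 : z = Complex.exp (Complex.arg z * Complex.I) := by
    have h6 := Complex.norm_mul_exp_arg_mul_I z
    rw [hz, Complex.ofReal_one, one_mul] at h6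
    exact h6.symm
  have h7 : ∑ n ∈ range N, mb n * z ^ n = ∑ n ∈ range N, ((ArithmeticFunction.moebius n : ℤ) : ℂ) *
      Complex.exp (2 * Real.pi * Complex.I * n * ((Complex.arg z / (2 * Real.pi) : ℝ) : ℂ)) := by
    refine sum_congr rfl fun n _ => ?_
    rw [mb]
    congr 1
    conv_lhs => rw [h5]
    rw [← Complex.exp_nat_mul]
    congr 1
    have hpi : (Real.pi : ℂ) ≠ 0 := by exact_mod_cast Real.pi_ne_zero
    push_cast
    field_simp
  rw [h7]
  refine h2.trans ?_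
  have hpos : 0 < C / ε := by positivity
  have h4 : 0 < (Real.log N) ^ (3 / 4 : ℝ) := hpos.trans_le h3
  rw [div_le_iff₀ h4]
  rw [div_le_iff₀ hε] at h3
  calc C * N ≤ (Real.log N) ^ (3 / 4 : ℝ) * ε * N := by gcongr
    _ = _ := by ring

theorem norm_conj_le (U V : unitary (H →L[ℂ] H)) (u : H →L[ℂ] H) (n : ℕ) :
    ‖(U : H →L[ℂ] H) ^ n * u * (V : H →L[ℂ] H) ^ n‖ ≤ ‖u‖ := by
  have h1 : (U : H →L[ℂ] H) ^ n * u * (V : H →L[ℂ] H) ^ n =
      ((U ^ n : unitary (H →L[ℂ] H)) : H →L[ℂ] H) * u * ((V ^ n : unitary (H →L[ℂ] H)) : H →L[ℂ] H) := by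
    simp
  rw [h1, CStarRing.norm_mul_coe_unitary, CStarRing.norm_coe_unitary_mul]

theorem norm_sum_conj_le (U V : unitary (H →L[ℂ] H)) (u : H →L[ℂ] H) (N : ℕ) :
    ‖∑ n ∈ range N, mb n • ((U : H →L[ℂ] H) ^ n * u * (V : H →L[ℂ] H) ^ n)‖ ≤ N * ‖u‖ := by
  refine (norm_sum_le _ _).trans ?_
  calc _ ≤ ∑ n ∈ range N, ‖u‖ := by
        refine sum_le_sum fun n _ => ?_
        rw [norm_smul]
        calc _ ≤ 1 * ‖u‖ := mul_le_mul (norm_mb_le n) (norm_conj_le U V u n) (norm_nonneg _) zero_le_one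
          _ = ‖u‖ := one_mul _
    _ = N * ‖u‖ := by rw [sum_const, card_range, nsmul_eq_mul]

/-- **compact operators**, uniformly in the unitary operators -/
theorem compact_good (hD : Pool.Agent.H807R2.Davenport) (u : H →L[ℂ] H) (hu : IsCompactOperator u)
    (ε : ℝ) (hε : 0 < ε) : ∃ N0 : ℕ, ∀ N ≥ N0, ∀ U V : unitary (H →L[ℂ] H),
      ‖∑ n ∈ range N, mb n • ((U : H →L[ℂ] H) ^ n * u * (V : H →L[ℂ] H) ^ n)‖ ≤ ε * N := by
  obtain ⟨m, e, w, h1⟩ := approx u hu (ε / 2) (by positivity)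
  let K : ℝ := 1 + ∑ i, ‖e i‖ * ‖w i‖
  have hK : 0 < K := by
    have : 0 ≤ ∑ i, ‖e i‖ * ‖w i‖ := sum_nonneg fun i _ => by positivity
    simp only [K]; linarith
  obtain ⟨N0, hN0⟩ := sup_of_dav hD (ε / (2 * K)) (by positivity)
  refine ⟨N0, fun N hN U V => ?_⟩
  have h2 : ∑ n ∈ range N, mb n • ((U : H →L[ℂ] H) ^ n * u * (V : H →L[ℂ] H) ^ n) =
      ∑ n ∈ range N, mb n • ((U : H →L[ℂ] H) ^ n * (u - ∑ i, rk (e i) (w i)) * (V : H →L[ℂ] H) ^ n) +
      ∑ i, ∑ n ∈ range N, mb n • ((U : H →L[ℂ] H) ^ n * rk (e i) (w i) * (V : H →L[ℂ] H) ^ n) := by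
    rw [sum_comm, ← sum_add_distrib]
    refine sum_congr rfl fun n _ => ?_
    rw [← smul_sum, ← smul_add, ← sum_mul, ← mul_sum, mul_sub, sub_mul, sub_add_cancel]
  rw [h2]
  have h3 := norm_sum_conj_le U V (u - ∑ i, rk (e i) (w i)) N
  have h4 : ‖∑ i, ∑ n ∈ range N, mb n • ((U : H →L[ℂ] H) ^ n * rk (e i) (w i) *
      (V : H →L[ℂ] H) ^ n)‖ ≤ ε / 2 * N := by
    refine (norm_sum_le _ _).trans ?_
    calc _ ≤ ∑ i, (ε / (2 * K) * N) * (‖e i‖ * ‖w i‖) := by
          refine sum_le_sum fun i _ => ?_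
          refine (rank_one U V mb N (hN0 N hN) (e i) (w i)).trans (le_of_eq (by ring))
      _ = (ε / (2 * K) * N) * ∑ i, ‖e i‖ * ‖w i‖ := by rw [mul_sum]
      _ ≤ (ε / (2 * K) * N) * K := by
          gcongr
          simp only [K]; linarith
      _ = ε / 2 * N := by field_simp
  calc _ ≤ N * (ε / 2) + ε / 2 * N :=
        (norm_add_le _ _).trans (add_le_add (h3.trans (by gcongr)) h4)
    _ = ε * N := by ring

/-- the operators which satisfy Möbius disjointness in norm for conjugation with `U` -/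
def GoodU (U : unitary (H →L[ℂ] H)) (x : H →L[ℂ] H) : Prop :=
  ∀ ε : ℝ, 0 < ε → ∃ N0 : ℕ, ∀ N ≥ N0,
    ‖∑ n ∈ range N, mb n • ((U : H →L[ℂ] H) ^ n * x * (star (U : H →L[ℂ] H)) ^ n)‖ ≤ ε * N

theorem good_add {U : unitary (H →L[ℂ] H)} {x y : H →L[ℂ] H} (hx : GoodU U x) (hy : GoodU U y) :
    GoodU U (x + y) := by
  intro ε hε
  obtain ⟨N1, h1⟩ := hx (ε / 2) (by positivity)
  obtain ⟨N2, h2⟩ := hy (ε / 2) (by positivity)
  refine ⟨max N1 N2, fun N hN => ?_⟩
  have h3 := h1 N ((le_max_left _ _).trans hN)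
  have h4 := h2 N ((le_max_right _ _).trans hN)
  simp only [mul_add, add_mul, smul_add, sum_add_distrib]
  exact (norm_add_le _ _).trans (by linarith)

theorem good_smul {U : unitary (H →L[ℂ] H)} {x : H →L[ℂ] H} (c : ℂ) (hx : GoodU U x) :
    GoodU U (c • x) := by
  intro ε hε
  obtain ⟨N1, h1⟩ := hx (ε / (‖c‖ + 1)) (by positivity)
  refine ⟨N1, fun N hN => ?_⟩
  have h3 := h1 N hN
  have h4 : ∑ n ∈ range N, mb n • ((U : H →L[ℂ] H) ^ n * (c • x) * (star (U : H →L[ℂ] H)) ^ n) =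
      c • ∑ n ∈ range N, mb n • ((U : H →L[ℂ] H) ^ n * x * (star (U : H →L[ℂ] H)) ^ n) := by
    rw [smul_sum]
    refine sum_congr rfl fun n _ => ?_
    rw [mul_smul_comm, smul_mul_assoc, smul_comm]
  rw [h4, norm_smul]
  calc _ ≤ (‖c‖ + 1) * (ε / (‖c‖ + 1) * N) := by gcongr; linarith
    _ = ε * N := by field_simp

theorem good_closure {U : unitary (H →L[ℂ] H)} {S : Set (H →L[ℂ] H)} (hS : ∀ x ∈ S, GoodU U x)
    {x : H →L[ℂ] H} (hx : x ∈ closure S) : GoodU U x := by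
  intro ε hε
  obtain ⟨y, hy, hxy⟩ := Metric.mem_closure_iff.1 hx (ε / 2) (by positivity)
  obtain ⟨N1, h1⟩ := hS y hy (ε / 2) (by positivity)
  refine ⟨N1, fun N hN => ?_⟩
  have h3 := h1 N hN
  rw [dist_eq_norm] at hxy
  have h4 := norm_sum_conj_le U (star U) (x - y) N
  rw [Unitary.coe_star] at h4
  have h5 : ∑ n ∈ range N, mb n • ((U : H →L[ℂ] H) ^ n * x * (star (U : H →L[ℂ] H)) ^ n) =
      ∑ n ∈ range N, mb n • ((U : H →L[ℂ] H) ^ n * (x - y) * (star (U : H →L[ℂ] H)) ^ n) +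
      ∑ n ∈ range N, mb n • ((U : H →L[ℂ] H) ^ n * y * (star (U : H →L[ℂ] H)) ^ n) := by
    rw [← sum_add_distrib]
    refine sum_congr rfl fun n _ => ?_
    rw [← smul_add, mul_sub, sub_mul, sub_add_cancel]
  rw [h5]
  calc _ ≤ N * (ε / 2) + ε / 2 * N :=
        (norm_add_le _ _).trans (add_le_add (h4.trans (by gcongr)) h3)
    _ = ε * N := by ring

/-- eigenoperators -/
theorem good_eigen (hD : Pool.Agent.H807R2.Davenport) {U : unitary (H →L[ℂ] H)} {x : H →L[ℂ] H}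
    {l : ℂ} (hl : ‖l‖ = 1) (hx : (U : H →L[ℂ] H) * x * star (U : H →L[ℂ] H) = l • x) : GoodU U x := by
  have h1 : ∀ n : ℕ, (U : H →L[ℂ] H) ^ n * x * (star (U : H →L[ℂ] H)) ^ n = l ^ n • x := by
    intro n
    induction n with
    | zero => simp
    | succ n ih =>
      calc (U : H →L[ℂ] H) ^ (n + 1) * x * (star (U : H →L[ℂ] H)) ^ (n + 1)
          = (U : H →L[ℂ] H) * ((U : H →L[ℂ] H) ^ n * x * (star (U : H →L[ℂ] H)) ^ n) *
              star (U : H →L[ℂ] H) := by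
            rw [pow_succ', pow_succ]; simp only [mul_assoc]
        _ = l ^ (n + 1) • x := by
            rw [ih, mul_smul_comm, smul_mul_assoc, hx, smul_smul, pow_succ]
  intro ε hε
  obtain ⟨N0, hN0⟩ := sup_of_dav hD (ε / (‖x‖ + 1)) (by positivity)
  refine ⟨N0, fun N hN => ?_⟩
  simp only [h1, smul_smul]
  rw [← sum_smul, norm_smul]
  calc _ ≤ (ε / (‖x‖ + 1) * N) * (‖x‖ + 1) := by
        gcongr
        · exact hN0 N hN l hl
        · linarith
    _ = ε * N := by field_simp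

end Pool.Agent.V11302.MC
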