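import Pool.Agent.V11302.MC.Cpt

/-! Automorphisms of an algebra of operators which contains the operators of rank one are implemented by
unitary operators. -/

set_option autoImplicit false
set_option linter.all false

namespace Pool.Agent.V11302.MC

open Filter Topology Finset InnerProductSpace

variable {H : Type*} [NormedAddCommGroup H] [InnerProductSpace ℂ H] [CompleteSpace H]

theorem mul_rk (a : H →L[ℂ] H) (x y : H) : a * rk x y = rk (a x) y := by
  ext b
  rw [mul_apply_eq_comp, rk_apply, rk_apply, map_smul]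

theorem rk_mul_rk (x y z w : H) : rk x y * rk z w = (inner ℂ y z : ℂ) • rk x w := by
  ext b
  rw [mul_apply_eq_comp, smul_apply, rk_apply, rk_apply, rk_apply, inner_smul_right, smul_smul,
    mul_comm]

theorem star_rk (x y : H) : star (rk x y) = rk y x := by
  rw [ContinuousLinearMap.star_eq_adjoint]
  symm
  rw [ContinuousLinearMap.eq_adjoint_iff]
  intro a b
  rw [rk_apply, rk_apply, inner_smul_left, inner_smul_right, inner_conj_symm, mul_comm]

variable {A : Type*} [NonUnitalCStarAlgebra A] (π : A →⋆ₙₐ[ℂ] (H →L[ℂ] H))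
  (hπ : Function.Injective π) (α : A ≃⋆ₐ[ℂ] A)

include hπ in
theorem exists_unitary (hK : ∀ x y : H, ∃ a, π a = rk x y) :
    ∃ U : unitary (H →L[ℂ] H), ∀ a, π (α a) = (U : H →L[ℂ] H) * π a * star (U : H →L[ℂ] H) := by
  rcases subsingleton_or_nontrivial H with hH | hH
  · exact ⟨1, fun a => Subsingleton.elim _ _⟩
  obtain ⟨x0, hx0⟩ := exists_ne (0 : H)
  obtain ⟨e, he⟩ : ∃ e : H, ‖e‖ = 1 := ⟨((‖x0‖⁻¹ : ℝ) : ℂ) • x0, by
    rw [norm_smul]; simp [hx0]⟩
  have hee : (inner ℂ e e : ℂ) = 1 := by rw [inner_self_eq_norm_sq_to_K, he]; simp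
  choose r hr using hK
  have h1 : ∀ a x y, a * r x y = r (π a x) y := by
    intro a x y
    apply hπ
    rw [map_mul, hr, hr, mul_rk]
  have h2 : ∀ x y z w, r x y * r z w = (inner ℂ y z : ℂ) • r x w := by
    intro x y z w
    apply hπ
    rw [map_mul, map_smul, hr, hr, hr, rk_mul_rk]
  have h3 : ∀ x y, star (r x y) = r y x := by
    intro x y
    apply hπ
    rw [map_star, hr, hr, star_rk]
  have h4 : ∀ x x' y, r (x + x') y = r x y + r x' y := by
    intro x x' y
    apply hπ
    rw [map_add, hr, hr, hr]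
    ext b
    simp [rk_apply]
  have h5 : ∀ (c : ℂ) x y, r (c • x) y = c • r x y := by
    intro c x y
    apply hπ
    rw [map_smul, hr, hr]
    ext b
    simp [rk_apply, smul_smul, mul_comm]
  -- a unit vector in the range of the projection `α (r e e)`
  have hq : π (α (r e e)) ≠ 0 := by
    intro h
    have h6' : α (r e e) = 0 := hπ (by rw [h, map_zero])
    have h6 : r e e = 0 := α.injective (h6'.trans (map_zero α).symm)
    have h7 := hr e e
    rw [h6, map_zero] at h7
    have h8 := congrArg (fun T : H →L[ℂ] H => T e) h7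
    simp only [rk_apply, hee, one_smul] at h8
    have h9 : e = 0 := by simpa using h8.symm
    rw [h9, norm_zero] at he
    exact zero_ne_one he
  have hqq : π (α (r e e)) * π (α (r e e)) = π (α (r e e)) := by
    rw [← map_mul, ← map_mul, h2, hee, one_smul]
  obtain ⟨v, hv⟩ : ∃ v, π (α (r e e)) v ≠ 0 := by
    by_contra hcon
    push Not at hcon
    exact hq (ContinuousLinearMap.ext hcon)
  obtain ⟨f, hf, hqf⟩ : ∃ f : H, ‖f‖ = 1 ∧ π (α (r e e)) f = f := by
    refine ⟨((‖π (α (r e e)) v‖⁻¹ : ℝ) : ℂ) • π (α (r e e)) v, ?_, ?_⟩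
    · rw [norm_smul]; simp [hv]
    · rw [map_smul, ← mul_apply_eq_comp, hqq]
  have hff : (inner ℂ f f : ℂ) = 1 := by rw [inner_self_eq_norm_sq_to_K, hf]; simp
  -- the isometry
  have hnorm : ∀ x, ‖π (α (r x e)) f‖ = ‖x‖ := by
    intro x
    have h6 : (inner ℂ (π (α (r x e)) f) (π (α (r x e)) f) : ℂ) = (inner ℂ x x : ℂ) := by
      rw [← ContinuousLinearMap.adjoint_inner_right, ← ContinuousLinearMap.star_eq_adjoint,
        ← map_star, ← map_star, ← mul_apply_eq_comp, ← map_mul, ← map_mul, h3, h2, map_smul,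
        map_smul, smul_apply, hqf, inner_smul_right, hff, mul_one]
    rw [inner_self_eq_norm_sq_to_K, inner_self_eq_norm_sq_to_K] at h6
    have h7 : ‖π (α (r x e)) f‖ ^ 2 = ‖x‖ ^ 2 := by exact_mod_cast h6
    exact (pow_left_inj₀ (norm_nonneg _) (norm_nonneg _) two_ne_zero).1 h7
  let W : H →ₗᵢ[ℂ] H :=
    { toFun := fun x => π (α (r x e)) f
      map_add' := fun x x' => by rw [h4, map_add, map_add, add_apply]
      map_smul' := fun c x => by
        rw [h5, map_smul, map_smul, smul_apply]; rfl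
      norm_map' := hnorm }
  have hsurj : Function.Surjective W := by
    intro z
    refine ⟨π (α.symm (r z f)) e, ?_⟩
    change π (α (r (π (α.symm (r z f)) e) e)) f = z
    rw [← h1, map_mul, map_mul, α.apply_symm_apply, mul_apply_eq_comp, hqf, hr, rk_apply, hff,
      one_smul]
  let W2 : H ≃ₗᵢ[ℂ] H := LinearIsometryEquiv.ofSurjective W hsurj
  let U : unitary (H →L[ℂ] H) := Unitary.linearIsometryEquiv.symm W2
  have hU : ∀ x, (U : H →L[ℂ] H) x = π (α (r x e)) f := by
    intro x
    have : (U : H →L[ℂ] H) = ((W2 : H ≃L[ℂ] H) : H →L[ℂ] H) := Unitary.coe_symm_linearIsometryEquiv_apply W2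
    rw [this]
    rfl
  refine ⟨U, fun a => ?_⟩
  have h6 : π (α a) * (U : H →L[ℂ] H) = (U : H →L[ℂ] H) * π a := by
    ext x
    rw [mul_apply_eq_comp, mul_apply_eq_comp, hU, hU, ← h1, map_mul, map_mul, mul_apply_eq_comp]
  rw [← h6, mul_assoc, Unitary.mul_star_self_of_mem U.2, mul_one]

end Pool.Agent.V11302.MC
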